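import Mathlib

/-!
# Locating-dominating coalition partitions

Every finite graph with at least three vertices has an LDC-partition (connected or not, of any
diameter). The only connected graphs without an LDC-partition are `K_1` and `K_2`.

Proof. By induction on `|L|` every LD-set `L` has a partition into sets which are not LD-sets, each
of which forms an LD-coalition with another one. Let `M ⊆ L` be an LD-set of minimum size, `x ∈ M`
and `R = L \ M`. If `R ∪ {x}` is not an LD-set, take `R ∪ {x}, M \ {x}`. If `R ∪ {x}` is an LD-set
but `R` is not, take `R, {x}, M \ {x}`. If `R` is an LD-set, add `{x}, M \ {x}` to a partition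
of `R`.
-/

set_option autoImplicit false
set_option linter.unusedSectionVars false

namespace Pool.Agent.Results.MP_c852bb_co.EveryGraph

open Finset

variable {V : Type*} [Fintype V] [DecidableEq V]

/-- `D` is a dominating set: every vertex outside `D` has a neighbour in `D`. -/
def IsDominating (G : SimpleGraph V) (D : Finset V) : Prop := ∀ v, v ∉ D → ∃ u ∈ D, G.Adj v u

/-- `D` is a locating-dominating set (LD-set): it is dominating, and distinct vertices `u`, `v`
outside `D` have different neighbourhoods in `D`. -/
def IsLDSet (G : SimpleGraph V) (D : Finset V) : Prop :=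
  IsDominating G D ∧ ∀ u v, u ∉ D → v ∉ D → u ≠ v →
    G.neighborSet u ∩ (D : Set V) ≠ G.neighborSet v ∩ (D : Set V)

/-- Two disjoint sets form an LD-coalition if neither of them is an LD-set but their union is. -/
def IsLDCoalition (G : SimpleGraph V) (X Y : Finset V) : Prop :=
  Disjoint X Y ∧ ¬ IsLDSet G X ∧ ¬ IsLDSet G Y ∧ IsLDSet G (X ∪ Y)

/-- An LDC-partition: a partition of the vertex set into nonempty sets such that no part is an
LD-set and each part forms an LD-coalition with another part. -/
def IsLDCPartition (G : SimpleGraph V) (P : Finpartition (univ : Finset V)) : Prop :=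
  (∀ X ∈ P.parts, ¬ IsLDSet G X) ∧ ∀ X ∈ P.parts, ∃ Y ∈ P.parts, Y ≠ X ∧ IsLDCoalition G X Y

variable {G : SimpleGraph V}

lemma IsLDSet.mono {D E : Finset V} (hD : IsLDSet G D) (h : D ⊆ E) : IsLDSet G E := by
  refine ⟨fun v hv => ?_, fun u v hu hv huv heq => ?_⟩
  · obtain ⟨u, hu, ha⟩ := hD.1 v (fun h' => hv (h h'))
    exact ⟨u, h hu, ha⟩
  · apply hD.2 u v (fun h' => hu (h h')) (fun h' => hv (h h')) huv
    ext w
    have hw := Set.ext_iff.1 heq w
    simp only [Set.mem_inter_iff, mem_coe] at hw ⊢
    constructor
    · rintro ⟨h1, h2⟩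
      exact ⟨(hw.1 ⟨h1, h h2⟩).1, h2⟩
    · rintro ⟨h1, h2⟩
      exact ⟨(hw.2 ⟨h1, h h2⟩).1, h2⟩

lemma ld_univ : IsLDSet G univ :=
  ⟨fun v hv => absurd (mem_univ v) hv, fun u _ hu => absurd (mem_univ u) hu⟩

lemma not_ld_singleton (h3 : 3 ≤ Fintype.card V) (x : V) : ¬ IsLDSet G {x} := by
  intro h
  have h2 : 1 < (univ.erase x).card := by
    rw [card_erase_of_mem (mem_univ x), card_univ]; omega
  obtain ⟨u, hu, v, hv, huv⟩ := one_lt_card.1 h2
  have hux : u ≠ x := (mem_erase.1 hu).1
  have hvx : v ≠ x := (mem_erase.1 hv).1
  have key : ∀ w, w ≠ x → G.neighborSet w ∩ (({x} : Finset V) : Set V) = {x} := by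
    intro w hw
    obtain ⟨y, hy, ha⟩ := h.1 w (by simpa using hw)
    rw [mem_singleton] at hy
    subst hy
    ext z
    simp only [coe_singleton, Set.mem_inter_iff, SimpleGraph.mem_neighborSet,
      Set.mem_singleton_iff, and_iff_right_iff_imp]
    rintro rfl
    exact ha
  exact h.2 u v (by simpa using hux) (by simpa using hvx) huv ((key u hux).trans (key v hvx).symm)

lemma not_ld_empty (h3 : 3 ≤ Fintype.card V) : ¬ IsLDSet G ∅ := by
  intro h
  have : Nonempty V := Fintype.card_pos_iff.1 (by omega)
  obtain ⟨x⟩ := this
  exact not_ld_singleton h3 x (h.mono (by simp))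

/-- Every LD-set has a partition into sets which are not LD-sets, each of which has an LD-set as
union with another, disjoint one. -/
lemma split (h3 : 3 ≤ Fintype.card V) : ∀ (n : ℕ) (L : Finset V), L.card = n → IsLDSet G L →
    ∃ P : Finpartition L, (∀ X ∈ P.parts, ¬ IsLDSet G X) ∧
      ∀ X ∈ P.parts, ∃ Y ∈ P.parts, Disjoint X Y ∧ IsLDSet G (X ∪ Y) := by
  classical
  intro n
  induction n using Nat.strong_induction_on with
  | _ n ih =>
  intro L hLn hL
  -- an LD-subset of minimum size
  have hne : (L.powerset.filter (fun M => IsLDSet G M)).Nonempty := ⟨L, by simp [hL]⟩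
  obtain ⟨M, hM, hmin⟩ := exists_min_image _ card hne
  simp only [mem_filter, mem_powerset] at hM hmin
  obtain ⟨hML, hMld⟩ := hM
  have hMne : M.Nonempty := by
    rw [nonempty_iff_ne_empty]
    rintro rfl
    exact not_ld_empty h3 hMld
  obtain ⟨x, hx⟩ := hMne
  set A := M.erase x with hA
  set R := L \ M with hR
  have hAld : ¬ IsLDSet G A := by
    intro h
    have := hmin A ⟨(erase_subset _ _).trans hML, h⟩
    rw [hA, card_erase_of_mem hx] at this
    have : 0 < M.card := card_pos.2 ⟨x, hx⟩
    omega
  have hAne : A ≠ ⊥ := by
    intro h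
    have hMx : M = {x} := by
      have h' : M.erase x = ∅ := h
      rw [← insert_erase hx, h']
      rfl
    rw [hMx] at hMld
    exact not_ld_singleton h3 x hMld
  have hxld : ¬ IsLDSet G {x} := not_ld_singleton h3 x
  have hAx : Disjoint A {x} := by simp [hA]
  have hAxM : A ∪ {x} = M := by
    rw [union_comm, ← insert_eq, insert_erase hx]
  have hRM : Disjoint R M := sdiff_disjoint
  have hRA : Disjoint R A := hRM.mono_right (erase_subset _ _)
  have hRx : Disjoint R {x} := hRM.mono_right (by simpa using hx)
  have hRxA : Disjoint (R ∪ {x}) A := by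
    rw [disjoint_union_left]
    exact ⟨hRA, hAx.symm⟩
  have hcov : (R ∪ {x}) ∪ A = L := by
    rw [union_assoc, union_comm {x} A, hAxM, hR, sdiff_union_of_subset hML]
  have hxne : ({x} : Finset V) ≠ ⊥ := by simp
  by_cases hRxld : IsLDSet G (R ∪ {x})
  · by_cases hRld : IsLDSet G R
    · -- induction
      have hcard : R.card < n := by
        rw [← hLn, hR]
        apply card_lt_card
        refine ⟨sdiff_subset, fun h => ?_⟩
        have := h (hML hx)
        rw [mem_sdiff] at this
        exact this.2 hx
      obtain ⟨Q, hQ1, hQ2⟩ := ih R.card hcard R rfl hRld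
      refine ⟨(Q.extend hxne hRx rfl).extend hAne hRxA hcov, ?_, ?_⟩
      · intro X hX
        simp only [Finpartition.extend_parts, mem_insert] at hX
        rcases hX with rfl | rfl | hX
        · exact hAld
        · exact hxld
        · exact hQ1 X hX
      · intro X hX
        simp only [Finpartition.extend_parts, mem_insert] at hX ⊢
        rcases hX with rfl | rfl | hX
        · exact ⟨{x}, Or.inr (Or.inl rfl), hAx, by rw [hAxM]; exact hMld⟩
        · exact ⟨A, Or.inl rfl, hAx.symm, by rw [union_comm, hAxM]; exact hMld⟩
        · obtain ⟨Y, hY, h⟩ := hQ2 X hX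
          exact ⟨Y, Or.inr (Or.inr hY), h⟩
    · have hRne : R ≠ ⊥ := by
        intro h
        have h' : R = ∅ := h
        rw [h', empty_union] at hRxld
        exact hxld hRxld
      refine ⟨((Finpartition.indiscrete hRne).extend hxne hRx rfl).extend hAne hRxA hcov, ?_, ?_⟩
      · intro X hX
        simp only [Finpartition.extend_parts, Finpartition.indiscrete_parts, mem_insert,
          mem_singleton] at hX
        rcases hX with rfl | rfl | rfl
        · exact hAld
        · exact hxld
        · exact hRld
      · intro X hX
        simp only [Finpartition.extend_parts, Finpartition.indiscrete_parts, mem_insert,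
          mem_singleton] at hX ⊢
        rcases hX with rfl | rfl | rfl
        · exact ⟨{x}, Or.inr (Or.inl rfl), hAx, by rw [hAxM]; exact hMld⟩
        · exact ⟨A, Or.inl rfl, hAx.symm, by rw [union_comm, hAxM]; exact hMld⟩
        · exact ⟨{x}, Or.inr (Or.inl rfl), hRx, hRxld⟩
  · have hRxne : R ∪ {x} ≠ ⊥ := by
      intro h
      have : x ∈ R ∪ {x} := by simp
      have h' : R ∪ {x} = ∅ := h
      rw [h'] at this
      simp at this
    refine ⟨(Finpartition.indiscrete hRxne).extend hAne hRxA hcov, ?_, ?_⟩
    · intro X hX
      simp only [Finpartition.extend_parts, Finpartition.indiscrete_parts, mem_insert,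
        mem_singleton] at hX
      rcases hX with rfl | rfl
      · exact hAld
      · exact hRxld
    · intro X hX
      simp only [Finpartition.extend_parts, Finpartition.indiscrete_parts, mem_insert,
        mem_singleton] at hX ⊢
      rcases hX with rfl | rfl
      · exact ⟨R ∪ {x}, Or.inr rfl, hRxA.symm, by rw [union_comm, hcov]; exact hL⟩
      · exact ⟨A, Or.inl rfl, hRxA, by rw [hcov]; exact hL⟩

/-- Every finite graph with at least three vertices has an LDC-partition (whatever its diameter,
and even if it is disconnected), while no connected graph with at most two vertices has one. -/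
theorem result {V : Type*} [Fintype V] [DecidableEq V] (G : SimpleGraph V) :
    (3 ≤ Fintype.card V → ∃ P : Finpartition (univ : Finset V), IsLDCPartition G P) ∧
    (G.Connected → Fintype.card V ≤ 2 →
      ¬ ∃ P : Finpartition (univ : Finset V), IsLDCPartition G P) := by
  constructor
  · intro h3
    obtain ⟨P, h1, h2⟩ := split (G := G) h3 _ univ rfl ld_univ
    refine ⟨P, h1, fun X hX => ?_⟩
    obtain ⟨Y, hY, hd, hl⟩ := h2 X hX
    refine ⟨Y, hY, ?_, hd, h1 X hX, h1 Y hY, hl⟩
    rintro rfl
    rw [disjoint_self_iff_empty] at hd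
    subst hd
    exact P.bot_notMem hX
  · rintro hG h2 ⟨P, h1, -⟩
    have hne : Nonempty V := hG.nonempty
    obtain ⟨a⟩ := hne
    have hsing : IsLDSet G {a} := by
      constructor
      · intro v hv
        rw [mem_singleton] at hv
        refine ⟨a, mem_singleton_self a, ?_⟩
        have : Nontrivial V := ⟨v, a, hv⟩
        obtain ⟨w, hw⟩ := hG.preconnected.exists_adj_of_nontrivial v
        by_cases hwa : w = a
        · exact hwa ▸ hw
        · exfalso
          have h3 : ({v, a, w} : Finset V).card = 3 := by
            rw [card_eq_three]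
            exact ⟨v, a, w, hv, hw.ne, fun h => hwa h.symm, rfl⟩
          have := card_le_univ ({v, a, w} : Finset V)
          omega
      · intro u v hu hv huv
        exfalso
        rw [mem_singleton] at hu hv
        have h3 : ({u, v, a} : Finset V).card = 3 := by
          rw [card_eq_three]
          exact ⟨u, v, a, huv, hu, hv, rfl⟩
        have := card_le_univ ({u, v, a} : Finset V)
        omega
    obtain ⟨X, hX, haX⟩ := P.exists_mem (mem_univ a)
    exact h1 X hX (hsing.mono (by simpa using haX))

end Pool.Agent.Results.MP_c852bb_co.EveryGraph
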